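import Pool.Agent.helper84.LP.SpecG

/-!
# MP_07c750 (quantum unique ergodicity), project LP, row `lp:LDB`: large deviations and boxes
-/

set_option autoImplicit false

open scoped MatrixGroups ContDiff Topology UpperHalfPlane ComplexConjugate
open UpperHalfPlane MeasureTheory Filter Set

namespace Pool.Agent.LP

open Pool.Agent.RS
open Pool.Agent.MS (bq BB BA SF pf)
open Pool.Agent.HV (FW)
open Pool.Agent.EN (XG MG mkX mkM fl pr)
open Pool.Agent.ER (Low LowJ)

noncomputable section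

/-- entries -/
theorem LDB_ent (u τ x : ℝ) :
    (lM u * aM τ * nM x).1 0 0 = Real.exp (τ / 2) ∧ (lM u * aM τ * nM x).1 0 1 = Real.exp (τ / 2) * x ∧
    (lM u * aM τ * nM x).1 1 0 = u * Real.exp (τ / 2) ∧
    (lM u * aM τ * nM x).1 1 1 = u * Real.exp (τ / 2) * x + Real.exp (-(τ / 2)) := by
  refine ⟨?_, ?_, ?_, ?_⟩ <;> simp [lM, aM, nM, Matrix.mul_apply, Fin.sum_univ_two]

/-- entries of the conjugate -/
theorem LDB_conj (t : ℝ) (h : SL(2, ℝ)) :
    (aM (-t) * h * aM t).1 0 0 = h.1 0 0 ∧ (aM (-t) * h * aM t).1 0 1 = Real.exp (-t) * h.1 0 1 ∧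
    (aM (-t) * h * aM t).1 1 0 = Real.exp t * h.1 1 0 ∧ (aM (-t) * h * aM t).1 1 1 = h.1 1 1 := by
  have e1 : Real.exp (-(t / 2)) * Real.exp (t / 2) = 1 := by rw [← Real.exp_add]; simp
  have e2 : Real.exp (-(t / 2)) * Real.exp (-(t / 2)) = Real.exp (-t) := by rw [← Real.exp_add]; ring_nf
  have e3 : Real.exp (t / 2) * Real.exp (t / 2) = Real.exp t := by rw [← Real.exp_add]; ring_nf
  have e4 : (-t) / 2 = -(t / 2) := by ring
  refine ⟨?_, ?_, ?_, ?_⟩
  · simp only [aM, Matrix.SpecialLinearGroup.coe_mul, Matrix.mul_apply, Fin.sum_univ_two, e4]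
    simp
    linear_combination (h.1 0 0) * e1
  · simp only [aM, Matrix.SpecialLinearGroup.coe_mul, Matrix.mul_apply, Fin.sum_univ_two, e4]
    simp
    linear_combination (h.1 0 1) * e2
  · simp only [aM, Matrix.SpecialLinearGroup.coe_mul, Matrix.mul_apply, Fin.sum_univ_two, e4]
    simp
    linear_combination (h.1 1 0) * e3
  · simp only [aM, Matrix.SpecialLinearGroup.coe_mul, Matrix.mul_apply, Fin.sum_univ_two, e4]
    simp
    linear_combination (h.1 1 1) * e1

theorem LDB_exp (b τ : ℝ) (hb : b ≤ 1 / 100) (hτ : |τ| ≤ b) :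
    |Real.exp (τ / 2) - 1| ≤ b ∧ |Real.exp (-(τ / 2)) - 1| ≤ b ∧ Real.exp (τ / 2) ≤ 2 := by
  have h1 : |τ / 2| ≤ 1 := by
    rw [abs_div, abs_two]; linarith
  have h2 := Real.abs_exp_sub_one_le h1
  have h3 : |-(τ / 2)| ≤ 1 := by rwa [abs_neg]
  have h4 := Real.abs_exp_sub_one_le h3
  rw [abs_neg] at h4
  rw [abs_div, abs_two] at h2 h4
  refine ⟨by linarith, by linarith, ?_⟩
  have := (abs_le.1 (h2.trans (by linarith : 2 * (|τ| / 2) ≤ 1))).2
  linarith

/-- the element `lM u * aM τ * nM x` is close to one -/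
theorem LDB_bq (b u v τ x : ℝ) (hb0 : 0 ≤ b) (hb : b ≤ 1 / 100) (hτ : |τ| ≤ b) (hx : |x| ≤ b) (hu : |u| ≤ v) (hv : v ≤ b) :
    |(lM u * aM τ * nM x).1 0 0 - 1| ≤ 2 * b ∧ |(lM u * aM τ * nM x).1 1 1 - 1| ≤ 2 * b ∧
    |(lM u * aM τ * nM x).1 0 1| ≤ 2 * b ∧ |(lM u * aM τ * nM x).1 1 0| ≤ 2 * v := by
  obtain ⟨e1, e2, e3⟩ := LDB_exp b τ hb hτ
  obtain ⟨f1, f2, f3, f4⟩ := LDB_ent u τ x
  have hp := Real.exp_pos (τ / 2)
  have hv0 : 0 ≤ v := (abs_nonneg u).trans hu
  have hab : |Real.exp (τ / 2)| ≤ 2 := by rw [abs_of_pos hp]; exact e3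
  refine ⟨?_, ?_, ?_, ?_⟩
  · rw [f1]; linarith
  · rw [f4]
    have h1 : |u * Real.exp (τ / 2) * x| ≤ b * 2 * b := by
      rw [abs_mul, abs_mul]
      exact mul_le_mul (mul_le_mul (hu.trans hv) hab (abs_nonneg _) hb0) hx (abs_nonneg _) (by positivity)
    have h2 : u * Real.exp (τ / 2) * x + Real.exp (-(τ / 2)) - 1 = u * Real.exp (τ / 2) * x + (Real.exp (-(τ / 2)) - 1) := by ring
    rw [h2]
    refine (abs_add_le _ _).trans ?_
    nlinarith
  · rw [f2, abs_mul]
    calc |Real.exp (τ / 2)| * |x| ≤ 2 * b := mul_le_mul hab hx (abs_nonneg _) (by norm_num)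
      _ = 2 * b := rfl
  · rw [f3, abs_mul]
    calc |u| * |Real.exp (τ / 2)| ≤ v * 2 := mul_le_mul hu hab (abs_nonneg _) hv0
      _ = 2 * v := by ring

theorem LDB_cont (hGLC : RS.GLC_stmt) (V : ℍ → ℝ) (hV : Continuous V) (g h : SL(2, ℝ)) :
    Continuous (fun t : ℝ => V ((g * aM t * h) • I)) := by
  obtain ⟨-, -, -, ha, -⟩ := hGLC
  have h1 : Continuous (fun t : ℝ => g * aM t * h) := (continuous_const.mul ha).mul continuous_const
  have h2 : Continuous (fun k : SL(2, ℝ) => k • I) := UpperHalfPlane.isProperMap_smul_I.continuous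
  exact hV.comp (h2.comp h1)

theorem LDB_int (hGLC : RS.GLC_stmt) (V : ℍ → ℝ) (hV : Continuous V) (ε δ b r τ x w w' n : ℝ) (hn : 0 ≤ n)
    (hδ : ∀ g k : SL(2, ℝ), (∀ i j : Fin 2, |k.1 i j - (1 : Matrix (Fin 2) (Fin 2) ℝ) i j| ≤ δ) → |V ((g * k) • I) - V (g • I)| ≤ ε)
    (hb0 : 0 ≤ b) (hb : b ≤ 1 / 100) (hbδ : 2 * b ≤ δ) (hτ : |τ| ≤ b) (hx : |x| ≤ b) (hr : r * Real.exp n = b)
    (hw : |w - w'| ≤ r) (z : SL(2, ℝ)) :
    ∫ t in (0 : ℝ)..n, V ((z * lM w' * aM t) • I) ≤ (∫ t in (0 : ℝ)..n, V ((z * lM w * aM τ * nM x * aM t) • I)) + ε * n := by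
  have hc1 : Continuous (fun t : ℝ => V ((z * lM w' * aM t) • I)) := by
    have := LDB_cont hGLC V hV (z * lM w') 1
    simpa only [mul_one] using this
  have hc2 : Continuous (fun t : ℝ => V ((z * lM w * aM τ * nM x * aM t) • I)) := by
    have := LDB_cont hGLC V hV (z * lM w * aM τ * nM x) 1
    simpa only [mul_one] using this
  have hr0 : 0 ≤ r := (abs_nonneg _).trans hw
  have hrb : r ≤ b := by
    rw [← hr]
    exact le_mul_of_one_le_right hr0 (Real.one_le_exp hn)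
  have hkey : ∀ t ∈ Icc (0 : ℝ) n, V ((z * lM w' * aM t) • I) ≤ V ((z * lM w * aM τ * nM x * aM t) • I) + ε := by
    intro t ht
    obtain ⟨-, -, -, -, -, -, -, -, -, -, ha, -, hl, -⟩ := hGLC
    have ha0 : aM t * aM (-t) = 1 := by
      rw [← ha]
      ext i j
      fin_cases i <;> fin_cases j <;> simp [aM]
    have e1 : z * lM w * aM τ * nM x * aM t = z * lM w' * aM t * (aM (-t) * (lM (w - w') * aM τ * nM x) * aM t) := by
      have h1 : z * lM w' * aM t * (aM (-t) * (lM (w - w') * aM τ * nM x) * aM t) =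
          z * (lM w' * (aM t * aM (-t)) * lM (w - w')) * aM τ * nM x * aM t := by
        simp only [mul_assoc]
      rw [h1, ha0, mul_one, ← hl]
      congr 5
      ring_nf
    have h2 := LDB_bq b (w - w') r τ x hb0 hb hτ hx hw hrb
    obtain ⟨k1, k2, k3, k4⟩ := LDB_conj t (lM (w - w') * aM τ * nM x)
    have h3 := hδ (z * lM w' * aM t) (aM (-t) * (lM (w - w') * aM τ * nM x) * aM t) (by
      intro i j
      fin_cases i <;> fin_cases j
      · show |(aM (-t) * (lM (w - w') * aM τ * nM x) * aM t).1 0 0 - (1 : Matrix (Fin 2) (Fin 2) ℝ) 0 0| ≤ δ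
        rw [k1, Matrix.one_apply_eq]
        exact h2.1.trans hbδ
      · show |(aM (-t) * (lM (w - w') * aM τ * nM x) * aM t).1 0 1 - (1 : Matrix (Fin 2) (Fin 2) ℝ) 0 1| ≤ δ
        rw [k2, Matrix.one_apply_ne (by decide), sub_zero, abs_mul, abs_of_pos (Real.exp_pos _)]
        have h5 : Real.exp (-t) ≤ 1 := Real.exp_le_one_iff.2 (by linarith [ht.1])
        calc Real.exp (-t) * |(lM (w - w') * aM τ * nM x).1 0 1| ≤ 1 * (2 * b) :=
              mul_le_mul h5 h2.2.2.1 (abs_nonneg _) zero_le_one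
          _ ≤ δ := by linarith
      · show |(aM (-t) * (lM (w - w') * aM τ * nM x) * aM t).1 1 0 - (1 : Matrix (Fin 2) (Fin 2) ℝ) 1 0| ≤ δ
        rw [k3, Matrix.one_apply_ne (by decide), sub_zero, abs_mul, abs_of_pos (Real.exp_pos _)]
        have h5 : Real.exp t ≤ Real.exp n := Real.exp_le_exp.2 ht.2
        calc Real.exp t * |(lM (w - w') * aM τ * nM x).1 1 0| ≤ Real.exp n * (2 * r) :=
              mul_le_mul h5 h2.2.2.2 (abs_nonneg _) (Real.exp_pos _).le
          _ = 2 * (r * Real.exp n) := by ring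
          _ ≤ δ := by rw [hr]; exact hbδ
      · show |(aM (-t) * (lM (w - w') * aM τ * nM x) * aM t).1 1 1 - (1 : Matrix (Fin 2) (Fin 2) ℝ) 1 1| ≤ δ
        rw [k4, Matrix.one_apply_eq]
        exact h2.2.1.trans hbδ)
    rw [← e1] at h3
    have h4 := (abs_le.1 h3).1
    linarith
  have hi1 : IntervalIntegrable (fun t : ℝ => V ((z * lM w' * aM t) • I)) volume 0 n := hc1.intervalIntegrable 0 n
  have hi2 : IntervalIntegrable (fun t : ℝ => V ((z * lM w * aM τ * nM x * aM t) • I)) volume 0 n := hc2.intervalIntegrable 0 n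
  have hi3 : IntervalIntegrable (fun _ : ℝ => ε) volume 0 n := continuous_const.intervalIntegrable 0 n
  have h5 := intervalIntegral.integral_mono_on hn hi1 (hi2.add hi3) hkey
  have h6 : (∫ t in (0 : ℝ)..n, (V ((z * lM w * aM τ * nM x * aM t) • I) + ε)) =
      (∫ t in (0 : ℝ)..n, V ((z * lM w * aM τ * nM x * aM t) • I)) + ∫ _ in (0 : ℝ)..n, ε :=
    intervalIntegral.integral_add hi2 hi3
  rw [h6, intervalIntegral.integral_const] at h5
  simp only [sub_zero, smul_eq_mul] at h5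
  linarith

theorem LDB_cnt (S : Set ℝ) (hS : S ⊆ Icc 0 1) (K : Finset ℤ) (r s : ℝ) (hr : 0 < r)
    (h : ∀ κ ∈ K, ∀ v : ℝ, (κ : ℝ) * r ≤ v → v < ((κ : ℝ) + 1) * r → v + s ∈ S) : (K.card : ℝ) * r ≤ volume.real S := by
  have hfin : volume S ≠ ⊤ := by
    refine ne_top_of_le_ne_top ?_ (measure_mono hS)
    rw [Real.volume_Icc]
    exact ENNReal.ofReal_ne_top
  have hdis : (K : Set ℤ).PairwiseDisjoint (fun κ : ℤ => Ico ((κ : ℝ) * r + s) (((κ : ℝ) + 1) * r + s)) := by
    intro κ _ κ' _ hne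
    rw [Function.onFun, Set.disjoint_left]
    intro v hv hv'
    apply hne
    have h1 : (κ : ℝ) < (κ' : ℝ) + 1 := by
      have := lt_of_le_of_lt hv.1 hv'.2
      nlinarith
    have h2 : (κ' : ℝ) < (κ : ℝ) + 1 := by
      have := lt_of_le_of_lt hv'.1 hv.2
      nlinarith
    have h1' : κ < κ' + 1 := by exact_mod_cast h1
    have h2' : κ' < κ + 1 := by exact_mod_cast h2
    omega
  have hU : (⋃ κ ∈ K, Ico ((κ : ℝ) * r + s) (((κ : ℝ) + 1) * r + s)) ⊆ S := by
    intro v hv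
    simp only [mem_iUnion, exists_prop] at hv
    obtain ⟨κ, hκ, h1, h2⟩ := hv
    have := h κ hκ (v - s) (by linarith) (by linarith)
    simpa using this
  have hm := measureReal_mono hU hfin
  have h2 : volume.real (⋃ κ ∈ K, Ico ((κ : ℝ) * r + s) (((κ : ℝ) + 1) * r + s)) = (K.card : ℝ) * r := by
    rw [measureReal_def, measure_biUnion_finset hdis (fun κ _ => measurableSet_Ico), ENNReal.toReal_sum (fun κ _ => by
      rw [Real.volume_Ico]; exact ENNReal.ofReal_ne_top)]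
    rw [Finset.sum_congr rfl (g := fun _ => r) (fun κ _ => by
      rw [Real.volume_Ico, ENNReal.toReal_ofReal (by nlinarith)]
      ring)]
    rw [Finset.sum_const, nsmul_eq_mul]
  rw [h2] at hm
  exact hm

theorem LDB_proof (hLDV : LDV_stmt) (hUCV : UCV_stmt) (hNET : IR.NET_stmt) (hGLC : RS.GLC_stmt) : LDB_stmt := by
  classical
  intro Γ F V ε hΓ hF hV hε
  obtain ⟨c', C, hc', hC, hL⟩ := hLDV Γ F V (ε / 2) hΓ hF hV (by linarith)
  obtain ⟨δ, hδ0, hδ⟩ := hUCV Γ V (ε / 2) hΓ hV (by linarith)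
  refine ⟨min (c' / 2) 1, lt_min (by linarith) one_pos, min_le_right _ _, ?_⟩
  intro a ha
  set M : ℝ := (∫ z in F, V z) / (volume F).toReal with hM
  set b : ℝ := min (δ / 100) (min (a / 8) (1 / 100)) with hb
  have hb0 : 0 < b := lt_min (by linarith) (lt_min (by linarith) (by norm_num))
  have hb1 : b ≤ 1 / 100 := (min_le_right _ _).trans (min_le_right _ _)
  have hb2 : b ≤ a / 8 := (min_le_right _ _).trans (min_le_left _ _)
  have hb3 : b ≤ δ / 100 := min_le_left _ _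
  obtain ⟨Z, hZ⟩ := hNET Γ b hΓ hb0
  have hVc : Continuous V := hV.1
  obtain ⟨-, -, -, haM, -, hlM, -, -, -, -, haa, -, hll, -⟩ := id hGLC
  set W : ℝ := (Z.card : ℝ) * (2 * C / b) with hW
  have hW0 : 0 ≤ W := by positivity
  refine ⟨⌈2 * W / c'⌉₊, fun n hn => ?_⟩
  have hn0 : (0 : ℝ) ≤ n := Nat.cast_nonneg n
  set r : ℝ := b * Real.exp (-(n : ℝ)) with hr
  have hr0 : 0 < r := mul_pos hb0 (Real.exp_pos _)
  have hrn : r * Real.exp n = b := by
    rw [hr, mul_assoc, ← Real.exp_add]; simp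
  have hrb : r ≤ b := by
    rw [← hrn]; exact le_mul_of_one_le_right hr0.le (Real.one_le_exp hn0)
  -- the cells
  set P : SL(2, ℝ) → ℤ → Prop := fun z κ => ∃ w τ x : ℝ, (κ : ℝ) * r ≤ w ∧ w ≤ ((κ : ℝ) + 1) * r ∧ |w| ≤ b ∧ |τ| ≤ b ∧ |x| ≤ b ∧
    ∫ t in (0 : ℝ)..n, V ((z * lM w * aM τ * nM x * aM t) • I) ≤ (M - ε) * n with hP
  set N : ℤ := ⌈b / r⌉ + 1 with hN
  set K : SL(2, ℝ) → Finset ℤ := fun z => (Finset.Icc (-N) N).filter (P z) with hK
  have hcell : ∀ z κ, P z κ → ∀ v : ℝ, (κ : ℝ) * r ≤ v → v < ((κ : ℝ) + 1) * r →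
      ∫ t in (0 : ℝ)..n, V ((z * lM v * aM t) • I) ≤ (M - ε / 2) * n := by
    intro z κ hPz v hv1 hv2
    obtain ⟨w, τ, x, h1, h2, h3, h4, h5, h6⟩ := hPz
    have h7 := LDB_int hGLC V hVc (ε / 2) δ b r τ x w v n hn0 hδ hb0.le hb1 (by linarith) h4 h5 hrn
      (abs_le.2 ⟨by linarith, by linarith⟩) z
    linarith
  have hcardK : ∀ z, ((K z).card : ℝ) * r ≤ 2 * (C * Real.exp (-(c' * n))) := by
    intro z
    have hsplit : (K z).card = ((K z).filter (fun κ => 0 ≤ κ)).card + ((K z).filter (fun κ => ¬ 0 ≤ κ)).card :=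
      (Finset.card_filter_add_card_filter_not (s := K z) (fun κ => 0 ≤ κ)).symm
    have h1 : (((K z).filter (fun κ => 0 ≤ κ)).card : ℝ) * r ≤ C * Real.exp (-(c' * n)) := by
      refine (LDB_cnt {v : ℝ | v ∈ Icc (0 : ℝ) 1 ∧ ∫ t in (0 : ℝ)..n, V ((z * lM v * aM t) • I) ≤ (M - ε / 2) * n}
        (fun v hv => hv.1) _ r 0 hr0 ?_).trans (hL n z hn0)
      intro κ hκ v hv1 hv2
      rw [Finset.mem_filter] at hκ
      have hPz := (Finset.mem_filter.1 hκ.1).2
      have hκ0 : (0 : ℝ) ≤ (κ : ℝ) := by exact_mod_cast hκ.2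
      rw [add_zero]
      refine ⟨⟨(mul_nonneg hκ0 hr0.le).trans hv1, ?_⟩, hcell z κ hPz v hv1 hv2⟩
      obtain ⟨w, τ, x, h1, h2, h3, -⟩ := hPz
      have := (abs_le.1 h3).2
      nlinarith
    have h2 : (((K z).filter (fun κ => ¬ 0 ≤ κ)).card : ℝ) * r ≤ C * Real.exp (-(c' * n)) := by
      refine (LDB_cnt {v : ℝ | v ∈ Icc (0 : ℝ) 1 ∧ ∫ t in (0 : ℝ)..n, V ((z * lM (-1) * lM v * aM t) • I) ≤ (M - ε / 2) * n}
        (fun v hv => hv.1) _ r 1 hr0 ?_).trans (hL n (z * lM (-1)) hn0)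
      intro κ hκ v hv1 hv2
      rw [Finset.mem_filter] at hκ
      have hPz := (Finset.mem_filter.1 hκ.1).2
      have hκ0 : (κ : ℝ) + 1 ≤ 0 := by
        have : κ + 1 ≤ 0 := by have := hκ.2; omega
        exact_mod_cast this
      have e1 : z * lM (-1) * lM (v + 1) = z * lM v := by
        rw [mul_assoc, ← hll]
        congr 2
        ring
      refine ⟨⟨?_, ?_⟩, ?_⟩
      · obtain ⟨w, τ, x, h1, h2, h3, -⟩ := hPz
        have := (abs_le.1 h3).1
        nlinarith
      · nlinarith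
      · show ∫ t in (0 : ℝ)..n, V ((z * lM (-1) * lM (v + 1) * aM t) • I) ≤ (M - ε / 2) * n
        rw [e1]
        exact hcell z κ hPz v hv1 hv2
    rw [hsplit]
    push_cast
    linarith
  refine ⟨Z.biUnion (fun z => (K z).image (fun κ : ℤ => z * lM ((κ : ℝ) * r))), ?_, ?_⟩
  · have h1 : ((Z.biUnion (fun z => (K z).image (fun κ : ℤ => z * lM ((κ : ℝ) * r)))).card : ℝ) ≤
        ∑ z ∈ Z, ((K z).card : ℝ) := by
      have h2 := Finset.card_biUnion_le (s := Z) (t := fun z => (K z).image (fun κ : ℤ => z * lM ((κ : ℝ) * r)))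
      have h3 : ∑ z ∈ Z, ((K z).image (fun κ : ℤ => z * lM ((κ : ℝ) * r))).card ≤ ∑ z ∈ Z, (K z).card :=
        Finset.sum_le_sum fun z _ => Finset.card_image_le
      exact_mod_cast h2.trans h3
    have h4 : ∀ z ∈ Z, ((K z).card : ℝ) ≤ 2 * C / b * Real.exp ((1 - c') * n) := by
      intro z _
      have h5 := hcardK z
      have h6 : 2 * C / b * Real.exp ((1 - c') * n) * r = 2 * (C * Real.exp (-(c' * n))) := by
        have e1 : Real.exp ((1 - c') * n) = Real.exp n * Real.exp (-(c' * n)) := by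
          rw [← Real.exp_add]; ring_nf
        rw [e1]
        have e2 : 2 * C / b * (Real.exp n * Real.exp (-(c' * n))) * r = 2 * C / b * (r * Real.exp n) * Real.exp (-(c' * n)) := by ring
        rw [e2, hrn]
        field_simp
      exact le_of_mul_le_mul_right (by rw [h6]; exact h5) hr0
    have h7 : ∑ z ∈ Z, ((K z).card : ℝ) ≤ W * Real.exp ((1 - c') * n) := by
      refine (Finset.sum_le_sum h4).trans ?_
      rw [Finset.sum_const, nsmul_eq_mul, hW]
      exact le_of_eq (by ring)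
    refine h1.trans (h7.trans ?_)
    have h8 : W ≤ c' / 2 * n := by
      have h9 : 2 * W / c' ≤ n := (Nat.le_ceil _).trans (by exact_mod_cast hn)
      rw [div_le_iff₀ hc'] at h9
      linarith
    have h10 : c' / 2 * n ≤ Real.exp (c' / 2 * n) := by
      have := Real.add_one_le_exp (c' / 2 * n)
      linarith
    calc W * Real.exp ((1 - c') * n) ≤ Real.exp (c' / 2 * n) * Real.exp ((1 - c') * n) :=
          mul_le_mul_of_nonneg_right (h8.trans h10) (Real.exp_pos _).le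
      _ = Real.exp ((1 - c' / 2) * n) := by rw [← Real.exp_add]; ring_nf
      _ ≤ Real.exp ((1 - min (c' / 2) 1) * n) := by
          apply Real.exp_le_exp.2
          apply mul_le_mul_of_nonneg_right _ hn0
          have := min_le_left (c' / 2) (1 : ℝ)
          linarith
  · intro g hg
    obtain ⟨y, hy, γ, w, τ, x, h1, h2, h3, h4⟩ := hZ g
    have hint : ∫ t in (0 : ℝ)..n, V ((y * lM w * aM τ * nM x * aM t) • I) ≤ (M - ε) * n := by
      have e1 : (fun t : ℝ => V ((y * lM w * aM τ * nM x * aM t) • I)) = fun t : ℝ => V ((g * aM t) • I) := by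
        funext t
        rw [← h4, mul_assoc, mul_smul]
        exact hV.2 γ _
      rw [e1]
      exact hg
    set κ : ℤ := ⌊w / r⌋ with hκ
    have k1 : (κ : ℝ) * r ≤ w := by
      have := Int.floor_le (w / r)
      rwa [le_div_iff₀ hr0] at this
    have k2 : w ≤ ((κ : ℝ) + 1) * r := by
      have := Int.lt_floor_add_one (w / r)
      rw [div_lt_iff₀ hr0] at this
      exact this.le
    have hPκ : P y κ := ⟨w, τ, x, k1, k2, h1, h2, h3, hint⟩
    have hbr : b / r ≤ N - 1 := by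
      rw [hN]; push_cast
      have := Int.le_ceil (b / r)
      linarith
    have hbr' : b ≤ (N - 1) * r := by
      rwa [div_le_iff₀ hr0] at hbr
    have hκN : κ ∈ Finset.Icc (-N) N := by
      rw [Finset.mem_Icc]
      have q1 := (abs_le.1 h1).1
      have q2 := (abs_le.1 h1).2
      constructor
      · have : (-(N : ℝ)) ≤ (κ : ℝ) := by
          by_contra hcon
          push Not at hcon
          have : ((κ : ℝ) + 1) * r < (-(N : ℝ) + 1) * r := mul_lt_mul_of_pos_right (by linarith) hr0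
          nlinarith
        exact_mod_cast this
      · have : (κ : ℝ) ≤ (N : ℝ) := by
          by_contra hcon
          push Not at hcon
          have : (N : ℝ) * r < (κ : ℝ) * r := mul_lt_mul_of_pos_right hcon hr0
          nlinarith
        exact_mod_cast this
    have hmem : y * lM ((κ : ℝ) * r) ∈ Z.biUnion (fun z => (K z).image (fun κ : ℤ => z * lM ((κ : ℝ) * r))) := by
      rw [Finset.mem_biUnion]
      refine ⟨y, hy, ?_⟩
      rw [Finset.mem_image]
      exact ⟨κ, Finset.mem_filter.2 ⟨hκN, hPκ⟩, rfl⟩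
    have hu : |w - (κ : ℝ) * r| ≤ r := abs_le.2 ⟨by linarith, by linarith⟩
    have hbq := LDB_bq b (w - (κ : ℝ) * r) r τ x hb0.le hb1 h2 h3 hu hrb
    refine ⟨y * lM ((κ : ℝ) * r), hmem, lM (w - (κ : ℝ) * r) * aM τ * nM x, ⟨?_, ?_, ?_, ?_⟩, ?_⟩
    · exact hbq.1.trans (by linarith)
    · exact hbq.2.1.trans (by linarith)
    · exact hbq.2.2.1.trans (by linarith)
    · refine hbq.2.2.2.trans ?_
      rw [hr]
      have := Real.exp_pos (-(n : ℝ))
      nlinarith
    · have e1 : y * lM ((κ : ℝ) * r) * (lM (w - (κ : ℝ) * r) * aM τ * nM x) = (γ : SL(2, ℝ)) * g := by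
        rw [h4]
        have e2 : y * lM ((κ : ℝ) * r) * (lM (w - (κ : ℝ) * r) * aM τ * nM x) =
            y * (lM ((κ : ℝ) * r) * lM (w - (κ : ℝ) * r)) * aM τ * nM x := by
          simp only [mul_assoc]
        rw [e2, ← hll]
        congr 4
        ring_nf
      rw [e1]
      apply Quotient.sound
      refine ⟨γ⁻¹, ?_⟩
      show ((γ⁻¹ : Γ) : SL(2, ℝ)) * ((γ : SL(2, ℝ)) * g) = g
      rw [Subgroup.coe_inv, inv_mul_cancel_left]

end

end Pool.Agent.LP
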